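import Pool.Agent.Lib.P901b45f.Almost

/-!
A short form of the class of almost uniform functions (MP_901b45_co).
-/

set_option autoImplicit false

namespace Pool.Agent.P901b45m

open Finset Pool.Agent.P901b45e Pool.Agent.P901b45d
open Pool.Agent.P901b45f (Almost sol_of_almost)

/-- for some `t ≥ 1`
* no integral vector `u` such that `u` and `2 - u` satisfy the inequalities of `q` on `I` has exactly
  `t + 1` entries `2`;
* `t = 1`, or `q S` is at least `card S + min (card S, card (I \ S), t)` for all `S`. -/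
def Few {α : Type*} [DecidableEq α] (I : Finset α) (q : Finset α → ℤ) : Prop :=
  ∃ t : ℕ, 1 ≤ t ∧
    (¬ ∃ u : α → ℤ, (∀ S ⊆ I, ∑ i ∈ S, u i ≤ q S) ∧ (∀ S ⊆ I, ∑ i ∈ S, (2 - u i) ≤ q S) ∧
        (I.filter (fun i => u i = 2)).card = t + 1) ∧
    (t = 1 ∨ ∀ S ⊆ I, (S.card : ℤ) + min (S.card : ℤ) (min ((I \ S).card : ℤ) t) ≤ q S)

theorem Few.almost {α : Type*} [DecidableEq α] {I : Finset α} {q : Finset α → ℤ}
    (h : Few I q) : Almost I q := by
  obtain ⟨t, h1, h2, h3⟩ := h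
  refine ⟨t, h1, Or.inr ?_, h3⟩
  rintro ⟨u, -, h4, h5, h6, -⟩
  exact h2 ⟨u, h4, h5, h6⟩

/-- an almost uniform function is in the short form, or has a point with more entries `2` than every
excess -/
theorem few_or {α : Type*} [DecidableEq α] {I : Finset α} {q : Finset α → ℤ}
    (h : Almost I q) (hz : ∀ u : α → ℤ, (∀ S ⊆ I, ∑ i ∈ S, u i ≤ q S) →
      (∀ S ⊆ I, ∑ i ∈ S, (2 - u i) ≤ q S) → (∀ i ∈ I, 0 ≤ u i ∧ u i ≤ 2) ∧
        (I.filter (fun i => u i = 0)).card = (I.filter (fun i => u i = 2)).card) :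
    Few I q ∨ ∃ u : α → ℤ, (∀ S ⊆ I, ∑ i ∈ S, u i ≤ q S) ∧ (∀ S ⊆ I, ∑ i ∈ S, (2 - u i) ≤ q S) ∧
      ∀ S ⊆ I, q S - S.card ≤ (I.filter (fun i => u i = 2)).card := by
  obtain ⟨t, h1, h2, h3⟩ := h
  by_cases h4 : ∃ u : α → ℤ, (∀ S ⊆ I, ∑ i ∈ S, u i ≤ q S) ∧
      (∀ S ⊆ I, ∑ i ∈ S, (2 - u i) ≤ q S) ∧ (I.filter (fun i => u i = 2)).card = t + 1
  · obtain ⟨u, h5, h6, h7⟩ := h4
    obtain ⟨h8, h9⟩ := hz u h5 h6
    rcases h2 with h2 | h2
    · right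
      refine ⟨u, h5, h6, fun S hS => ?_⟩
      have h10 := h2 S hS
      rw [h7]
      push_cast
      omega
    · exact absurd ⟨u, h8, h5, h6, h7, h9.trans h7⟩ h2
  · exact Or.inl ⟨t, h1, h4, h3⟩

end Pool.Agent.P901b45m
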