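import Pool.Agent.Lib.P901b45z.Near

/-!
Vertices which violate exactly one inequality, by one, for Frank's question on complementary
vertices of integer 2-polymatroids (MP_901b45_co).
-/

set_option autoImplicit false

namespace Pool.Agent.P901b45m

open Finset Pool.Agent.P901b45e Pool.Agent.P901b45d Pool.Agent.P901b45z

variable {α : Type*} [DecidableEq α] {G D : Finset α} {h : Finset α → ℤ} {x : α → ℤ}

/-- `x` is a vertex of the base polytope of `h`, and `-x` violates exactly one inequality, by one -/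
structure Miss (G : Finset α) (h : Finset α → ℤ) (x : α → ℤ) (D : Finset α) : Prop where
  le : ∀ A ⊆ G, ∑ e ∈ A, x e ≤ h A
  tot : ∑ e ∈ G, x e = 0
  sep : ∀ i ∈ G, ∀ j ∈ G, i ≠ j → ∃ X ⊆ G, ∑ e ∈ X, x e = h X ∧
    ((i ∈ X ∧ j ∉ X) ∨ (j ∈ X ∧ i ∉ X))
  sub : D ⊆ G
  eq : h D + ∑ e ∈ D, x e = -1
  oth : ∀ A ⊆ G, A ≠ D → 0 ≤ h A + ∑ e ∈ A, x e
  irr : ∀ A ⊆ G, A ≠ ∅ → A ≠ G → A ≠ D → 1 ≤ h A

theorem lat (hh : Sub G h) (hle : ∀ A ⊆ G, ∑ e ∈ A, x e ≤ h A) {A B : Finset α} (hA : A ⊆ G)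
    (hB : B ⊆ G) (h1 : ∑ e ∈ A, x e = h A) (h2 : ∑ e ∈ B, x e = h B) :
    ∑ e ∈ A ∪ B, x e = h (A ∪ B) ∧ ∑ e ∈ A ∩ B, x e = h (A ∩ B) := by
  have e1 := hh.sub A hA B hB
  have e2 : ∑ e ∈ A ∪ B, x e + ∑ e ∈ A ∩ B, x e = ∑ e ∈ A, x e + ∑ e ∈ B, x e :=
    Finset.sum_union_inter
  have e3 := hle (A ∪ B) (union_subset hA hB)
  have e4 := hle (A ∩ B) (inter_subset_left.trans hA)
  constructor <;> omega

theorem Miss.lat (hh : Sub G h) (m : Miss G h x D) {A B : Finset α} (hA : A ⊆ G) (hB : B ⊆ G)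
    (h1 : ∑ e ∈ A, x e = h A) (h2 : ∑ e ∈ B, x e = h B) :
    ∑ e ∈ A ∪ B, x e = h (A ∪ B) ∧ ∑ e ∈ A ∩ B, x e = h (A ∩ B) :=
  P901b45m.lat hh m.le hA hB h1 h2

theorem val (hh : Sub G h) (hG : h G = 0) (hle : ∀ A ⊆ G, ∑ e ∈ A, x e ≤ h A)
    (htot : ∑ e ∈ G, x e = 0) : ∀ e ∈ G, x e = 1 ∨ x e = -1 ∨ x e = 0 := by
  intro e he
  have h1 := hle {e} (singleton_subset_iff.2 he)
  rw [sum_singleton] at h1
  have h2 := hh.up ∅ (empty_subset _) e he
  rw [hh.empty] at h2
  have h3 : h {e} ≤ 1 := by simpa using h2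
  have h4 := hle (G.erase e) (erase_subset _ _)
  have h5 := hh.down (G.erase e) (erase_subset _ _) e he
  rw [insert_erase he, hG] at h5
  have h6 := Finset.add_sum_erase G x he
  rw [htot] at h6
  omega

theorem Miss.val (hh : Sub G h) (hG : h G = 0) (m : Miss G h x D) :
    ∀ e ∈ G, x e = 1 ∨ x e = -1 ∨ x e = 0 := P901b45m.val hh hG m.le m.tot

theorem Miss.plus (hh : Sub G h) (m : Miss G h x D) {e : α} (he : e ∈ G) (h1 : x e = 1) :
    e ∉ D := by
  intro hD
  have h2 := m.oth (D.erase e) ((erase_subset _ _).trans m.sub) (by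
    intro h3
    apply notMem_erase e D
    rw [h3]
    exact hD)
  have h3 := Finset.add_sum_erase D x hD
  have h4 := hh.down (D.erase e) ((erase_subset _ _).trans m.sub) e he
  rw [insert_erase hD] at h4
  have h5 := m.eq
  omega

theorem Miss.minus (hh : Sub G h) (m : Miss G h x D) {e : α} (he : e ∈ G) (h1 : x e = -1) :
    e ∈ D := by
  by_contra hD
  have h2 := m.oth (insert e D) (insert_subset he m.sub) (by
    intro h3
    apply hD
    rw [← h3]
    exact mem_insert_self _ _)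
  rw [sum_insert hD] at h2
  have h4 := hh.up D m.sub e he
  have h5 := m.eq
  omega

theorem Miss.neg (hh : Sub G h) (m : Miss G h x D) {i j : α} (hiD : i ∈ D) (hjD : j ∉ D) :
    ∀ A ⊆ G, -∑ e ∈ A, (x e + root i j e) ≤ h A := by
  intro A hA
  rw [sum_add_distrib, sum_root]
  by_cases hAD : A = D
  · rw [hAD, if_pos hiD, if_neg hjD]
    have := m.eq
    omega
  have h0 := m.oth A hA hAD
  by_cases hj : j ∈ A
  · by_cases hi : i ∈ A
    · rw [if_pos hi, if_pos hj]; omega
    · rw [if_neg hi, if_pos hj]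
      have h1 := hh.sub A hA D m.sub
      have h2 : ∑ e ∈ A ∪ D, x e + ∑ e ∈ A ∩ D, x e = ∑ e ∈ A, x e + ∑ e ∈ D, x e :=
        Finset.sum_union_inter
      have h3 := m.oth (A ∪ D) (union_subset hA m.sub) (by
        intro h6
        apply hjD
        rw [← h6]
        exact mem_union_left _ hj)
      have h4 := m.oth (A ∩ D) (inter_subset_left.trans hA) (by
        intro h6
        apply hi
        rw [← h6] at hiD
        exact (mem_inter.1 hiD).1)
      have h5 := m.eq
      omega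
  · rw [if_neg hj]
    split_ifs <;> omega

theorem Miss.edge (hh : Sub G h) (hG : h G = 0) (m : Miss G h x D) {i j : α} {A : Finset α}
    (hA : A ⊆ G) (hi : i ∈ G) (hj : j ∈ G) (hij : i ≠ j) (hiA : i ∉ A) (hjA : j ∉ A)
    (t0 : ∑ e ∈ A, x e = h A)
    (t2 : ∑ e ∈ insert i (insert j A), x e = h (insert i (insert j A)))
    (hcl : ∀ X ⊆ G, ∑ e ∈ X, x e = h X → i ∈ X → j ∈ X) (hiD : i ∈ D) (hjD : j ∉ D)
    (hz : x i = 0 ∨ x j = 0) : ∃ y, Sol G h y := by
  have hi' : x i ≠ 1 := fun h1 => m.plus hh hi h1 hiD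
  have hj' : x j ≠ -1 := fun h1 => hjD (m.minus hh hj h1)
  have hvi := m.val hh hG i hi
  have hvj := m.val hh hG j hj
  have hri : root i j i = 1 := by unfold root; rw [if_pos rfl, if_neg hij]; norm_num
  have hrj : root i j j = -1 := by
    unfold root; rw [if_pos rfl, if_neg (fun h => hij h.symm)]; norm_num
  have hr : ∀ e, e ≠ i → e ≠ j → root i j e = 0 := by
    intro e h1 h2
    unfold root
    rw [if_neg h1, if_neg h2]
    norm_num
  set B : Finset α := insert i (insert j A) with hB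
  have hBG : B ⊆ G := insert_subset hi (insert_subset hj hA)
  have hiB : i ∈ B := mem_insert_self _ _
  have hjB : j ∈ B := mem_insert_of_mem (mem_insert_self _ _)
  have hAB : ∀ b, b ∉ A → b ≠ i → b ≠ j → b ∉ B := by
    intro b h1 h2 h3 h4
    rw [hB, mem_insert, mem_insert] at h4
    tauto
  -- sets which separate
  have key1 : ∀ a b, (a = i ∨ a = j) → b ≠ i → b ≠ j → ∃ Y ⊆ G, (i ∈ Y ↔ j ∈ Y) ∧
      ∑ e ∈ Y, x e = h Y ∧ ((a ∈ Y ∧ b ∉ Y) ∨ (b ∈ Y ∧ a ∉ Y)) := by
    intro a b ha hb1 hb2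
    by_cases hbA : b ∈ A
    · refine ⟨A, hA, ⟨fun h => absurd h hiA, fun h => absurd h hjA⟩, t0, Or.inr ⟨hbA, ?_⟩⟩
      rcases ha with rfl | rfl
      · exact hiA
      · exact hjA
    · refine ⟨B, hBG, ⟨fun _ => hjB, fun _ => hiB⟩, t2, Or.inl ⟨?_, hAB b hbA hb1 hb2⟩⟩
      rcases ha with rfl | rfl
      · exact hiB
      · exact hjB
  have key2 : ∀ a b, a ≠ i → a ≠ j → b ≠ i → b ≠ j → ∀ X ⊆ G, ∑ e ∈ X, x e = h X → a ∈ X →
      b ∉ X → ∃ Y ⊆ G, (i ∈ Y ↔ j ∈ Y) ∧
      ∑ e ∈ Y, x e = h Y ∧ ((a ∈ Y ∧ b ∉ Y) ∨ (b ∈ Y ∧ a ∉ Y)) := by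
    intro a b ha1 ha2 hb1 hb2 X hX hXt haX hbX
    by_cases hbA : b ∈ A
    · by_cases haA : a ∈ A
      · refine ⟨X ∩ A, inter_subset_right.trans hA, ⟨fun h => absurd (mem_inter.1 h).2 hiA,
          fun h => absurd (mem_inter.1 h).2 hjA⟩, (m.lat hh hX hA hXt t0).2,
          Or.inl ⟨mem_inter.2 ⟨haX, haA⟩, fun h => hbX (mem_inter.1 h).1⟩⟩
      · exact ⟨A, hA, ⟨fun h => absurd h hiA, fun h => absurd h hjA⟩, t0, Or.inr ⟨hbA, haA⟩⟩
    · refine ⟨X ∪ B, union_subset hX hBG, ⟨fun _ => mem_union_right _ hjB,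
        fun _ => mem_union_right _ hiB⟩, (m.lat hh hX hBG hXt t2).1,
        Or.inl ⟨mem_union_left _ haX, fun h => ?_⟩⟩
      rcases mem_union.1 h with h | h
      · exact hbX h
      · exact hAB b hbA hb1 hb2 h
  refine ⟨fun e => x e + root i j e, sol_of hh hG ?_ (m.neg hh hiD hjD) ?_ ?_⟩
  · intro X hX
    rw [sum_add_distrib, sum_root]
    have h4 := m.le X hX
    by_cases h5 : i ∈ X
    · by_cases h6 : j ∈ X
      · rw [if_pos h5, if_pos h6]; omega
      · rw [if_pos h5, if_neg h6]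
        have h7 : ∑ e ∈ X, x e ≠ h X := fun h8 => h6 (hcl X hX h8 h5)
        omega
    · rw [if_neg h5]
      split_ifs <;> omega
  · intro e he
    show x e + root i j e = 1 ∨ x e + root i j e = -1 ∨ x e + root i j e = 0
    by_cases h5 : e = i
    · rw [h5, hri]; omega
    by_cases h6 : e = j
    · rw [h6, hrj]; omega
    rw [hr e h5 h6]
    have := m.val hh hG e he
    omega
  · intro a ha b hb hab ha0 hb0
    have ha0' : x a + root i j a = 0 := ha0
    have hb0' : x b + root i j b = 0 := hb0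
    have main : ∃ Y ⊆ G, (i ∈ Y ↔ j ∈ Y) ∧
      ∑ e ∈ Y, x e = h Y ∧ ((a ∈ Y ∧ b ∉ Y) ∨ (b ∈ Y ∧ a ∉ Y)) := by
      by_cases ha1 : a = i ∨ a = j
      · by_cases hb1 : b = i ∨ b = j
        · exfalso
          rcases ha1 with ha1 | ha1 <;> rcases hb1 with hb1 | hb1
          · exact hab (ha1.trans hb1.symm)
          · rw [ha1, hri] at ha0'
            rw [hb1, hrj] at hb0'
            omega
          · rw [ha1, hrj] at ha0'
            rw [hb1, hri] at hb0'
            omega
          · exact hab (ha1.trans hb1.symm)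
        · push Not at hb1
          exact key1 a b ha1 hb1.1 hb1.2
      · push Not at ha1
        by_cases hb1 : b = i ∨ b = j
        · obtain ⟨Y, h1, h2, h3, h4⟩ := key1 b a hb1 ha1.1 ha1.2
          exact ⟨Y, h1, h2, h3, h4.symm⟩
        · push Not at hb1
          obtain ⟨X, hX, hXt, h4⟩ := m.sep a ha b hb hab
          rcases h4 with h4 | h4
          · exact key2 a b ha1.1 ha1.2 hb1.1 hb1.2 X hX hXt h4.1 h4.2
          · obtain ⟨Y, h1, h2, h3, h5⟩ := key2 b a hb1.1 hb1.2 ha1.1 ha1.2 X hX hXt h4.1 h4.2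
            exact ⟨Y, h1, h2, h3, h5.symm⟩
    obtain ⟨Y, h1, h2, h3, h4⟩ := main
    refine ⟨Y, h1, ?_, h4⟩
    rw [sum_add_distrib, sum_root, h3]
    by_cases h5 : i ∈ Y
    · rw [if_pos h5, if_pos (h2.1 h5)]; ring
    · rw [if_neg h5, if_neg (fun h => h5 (h2.2 h))]; ring

/-- a least tight set around `i` stays tight without `i` -/
theorem Miss.erase_tight (hh : Sub G h) (m : Miss G h x D) {i : α} {Y : Finset α} (hY : Y ⊆ G)
    (hYt : ∑ e ∈ Y, x e = h Y) (hiY : i ∈ Y)
    (hleast : ∀ X ⊆ G, ∑ e ∈ X, x e = h X → i ∈ X → Y ⊆ X) :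
    ∑ e ∈ Y.erase i, x e = h (Y.erase i) := by
  obtain ⟨B, hB, hmax⟩ := exists_max_image
    ((Y.erase i).powerset.filter (fun B => ∑ e ∈ B, x e = h B)) (fun B => B.card)
    ⟨∅, mem_filter.2 ⟨mem_powerset.2 (empty_subset _), by rw [sum_empty, hh.empty]⟩⟩
  rw [mem_filter, mem_powerset] at hB
  obtain ⟨hB1, hB2⟩ := hB
  have hBY : B ⊆ Y := hB1.trans (erase_subset _ _)
  have hEq : B = Y.erase i := by
    apply Subset.antisymm hB1
    intro k hk
    by_contra hkB
    have hkY := (mem_erase.1 hk).2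
    obtain ⟨X, hX, hXt, h1⟩ := m.sep i (hY hiY) k (hY hkY) (fun h => (mem_erase.1 hk).1 h.symm)
    rcases h1 with h1 | h1
    · exact h1.2 (hleast X hX hXt h1.1 hkY)
    · have h2 := (m.lat hh hX hY hXt hYt).2
      have h3 := (m.lat hh (hBY.trans hY) (inter_subset_right.trans hY) hB2 h2).1
      have h4 := hmax (B ∪ X ∩ Y) (mem_filter.2 ⟨mem_powerset.2 (by
        intro e he
        rcases mem_union.1 he with he | he
        · exact hB1 he
        · refine mem_erase.2 ⟨?_, (mem_inter.1 he).2⟩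
          intro h5
          rw [h5] at he
          exact h1.2 (mem_inter.1 he).1), h3⟩)
      have h5 : B.card < (B ∪ X ∩ Y).card := by
        apply card_lt_card
        rw [ssubset_iff_of_subset subset_union_left]
        exact ⟨k, mem_union_right _ (mem_inter.2 ⟨h1.1, hkY⟩), hkB⟩
      have h6 : (B ∪ X ∩ Y).card ≤ B.card := h4
      omega
  rw [← hEq]
  exact hB2

/-- a tight set stays tight without one of its elements -/
theorem Miss.down_step (hh : Sub G h) (m : Miss G h x D) {Z : Finset α} (hZ : Z ⊆ G)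
    (hZt : ∑ e ∈ Z, x e = h Z) (hne : Z ≠ ∅) :
    ∃ j ∈ Z, ∑ e ∈ Z.erase j, x e = h (Z.erase j) := by
  obtain ⟨A, hA, hmax⟩ := exists_max_image
    (Z.ssubsets.filter (fun B => ∑ e ∈ B, x e = h B)) (fun B => B.card)
    ⟨∅, mem_filter.2 ⟨mem_ssubsets.2 (nonempty_iff_ne_empty.2 hne |> fun h => by
      rw [ssubset_iff_of_subset (empty_subset _)]
      obtain ⟨z, hz⟩ := h
      exact ⟨z, hz, notMem_empty z⟩), by rw [sum_empty, hh.empty]⟩⟩
  rw [mem_filter, mem_ssubsets] at hA
  obtain ⟨hA1, hA2⟩ := hA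
  have hAZ := hA1.1
  obtain ⟨j, hj, hjA⟩ := (ssubset_iff_of_subset hAZ).1 hA1
  refine ⟨j, hj, ?_⟩
  have hcon : ∀ u ∈ Z, u ∉ A → ∀ v ∈ Z, v ∉ A → ∀ X ⊆ G, ∑ e ∈ X, x e = h X → u ∈ X → v ∉ X →
      False := by
    intro u hu huA v hv hvA X hX hXt huX hvX
    have h2 := (m.lat hh hX hZ hXt hZt).2
    have h3 := (m.lat hh (hAZ.trans hZ) (inter_subset_right.trans hZ) hA2 h2).1
    have h4 := hmax (A ∪ X ∩ Z) (mem_filter.2 ⟨mem_ssubsets.2 (by
      rw [ssubset_iff_of_subset (union_subset hAZ inter_subset_right)]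
      refine ⟨v, hv, fun h5 => ?_⟩
      rcases mem_union.1 h5 with h5 | h5
      · exact hvA h5
      · exact hvX (mem_inter.1 h5).1), h3⟩)
    have h5 : A.card < (A ∪ X ∩ Z).card := by
      apply card_lt_card
      rw [ssubset_iff_of_subset subset_union_left]
      exact ⟨u, mem_union_right _ (mem_inter.2 ⟨huX, hu⟩), huA⟩
    have h6 : (A ∪ X ∩ Z).card ≤ A.card := h4
    omega
  have hEq : A = Z.erase j := by
    apply Subset.antisymm
    · intro e he
      exact mem_erase.2 ⟨fun h5 => hjA (h5 ▸ he), hAZ he⟩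
    · intro k hk
      by_contra hkA
      have hkZ := (mem_erase.1 hk).2
      obtain ⟨X, hX, hXt, h1⟩ := m.sep j (hZ hj) k (hZ hkZ) (fun h => (mem_erase.1 hk).1 h.symm)
      rcases h1 with h1 | h1
      · exact hcon j hj hjA k hkZ hkA X hX hXt h1.1 h1.2
      · exact hcon k hkZ hkA j hj hjA X hX hXt h1.1 h1.2
  rw [← hEq]
  exact hA2

/-- a greatest tight set without `j` stays tight with `j` -/
theorem Miss.insert_tight (hh : Sub G h) (hG : h G = 0) (m : Miss G h x D) {j : α} {F : Finset α}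
    (hF : F ⊆ G) (hFt : ∑ e ∈ F, x e = h F) (hj : j ∈ G)
    (hgreat : ∀ X ⊆ G, ∑ e ∈ X, x e = h X → j ∉ X → X ⊆ F) :
    ∑ e ∈ insert j F, x e = h (insert j F) := by
  obtain ⟨B, hB, hmin⟩ := exists_min_image
    (G.powerset.filter (fun B => insert j F ⊆ B ∧ ∑ e ∈ B, x e = h B)) (fun B => B.card)
    ⟨G, mem_filter.2 ⟨mem_powerset.2 (Subset.refl _), insert_subset hj hF, by rw [m.tot, hG]⟩⟩
  rw [mem_filter, mem_powerset] at hB
  obtain ⟨hB1, hB2, hB3⟩ := hB
  have hEq : B = insert j F := by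
    apply Subset.antisymm _ hB2
    intro k hk
    by_contra hkF
    have hkj : k ≠ j := fun h5 => hkF (h5 ▸ mem_insert_self _ _)
    have hkF' : k ∉ F := fun h5 => hkF (mem_insert_of_mem h5)
    obtain ⟨X, hX, hXt, h1⟩ := m.sep j hj k (hB1 hk) hkj.symm
    rcases h1 with h1 | h1
    · have h2 := (m.lat hh hF hX hFt hXt).1
      have h3 := (m.lat hh (union_subset hF hX) hB1 h2 hB3).2
      have h4 := hmin ((F ∪ X) ∩ B) (mem_filter.2 ⟨mem_powerset.2 (inter_subset_right.trans hB1), by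
        intro e he
        refine mem_inter.2 ⟨?_, hB2 he⟩
        rcases mem_insert.1 he with he | he
        · rw [he]; exact mem_union_right _ h1.1
        · exact mem_union_left _ he, h3⟩)
      have h5 : ((F ∪ X) ∩ B).card < B.card := by
        apply card_lt_card
        rw [ssubset_iff_of_subset inter_subset_right]
        refine ⟨k, hk, fun h6 => ?_⟩
        rcases mem_union.1 (mem_inter.1 h6).1 with h6 | h6
        · exact hkF' h6
        · exact h1.2 h6
      have h6 : B.card ≤ ((F ∪ X) ∩ B).card := h4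
      omega
    · exact hkF' (hgreat X hX hXt h1.2 h1.1)
  rw [← hEq]
  exact hB3

/-- a tight set stays tight with one more element -/
theorem Miss.up_step (hh : Sub G h) (hG : h G = 0) (m : Miss G h x D) {Z : Finset α} (hZ : Z ⊆ G)
    (hZt : ∑ e ∈ Z, x e = h Z) (hne : Z ≠ G) :
    ∃ i ∈ G, i ∉ Z ∧ ∑ e ∈ insert i Z, x e = h (insert i Z) := by
  obtain ⟨B, hB, hmin⟩ := exists_min_image
    (G.powerset.filter (fun B => Z ⊂ B ∧ ∑ e ∈ B, x e = h B)) (fun B => B.card)
    ⟨G, mem_filter.2 ⟨mem_powerset.2 (Subset.refl _), hZ.ssubset_of_ne hne, by rw [m.tot, hG]⟩⟩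
  rw [mem_filter, mem_powerset] at hB
  obtain ⟨hB1, hB2, hB3⟩ := hB
  have hZB := hB2.1
  obtain ⟨i, hi, hiZ⟩ := (ssubset_iff_of_subset hZB).1 hB2
  refine ⟨i, hB1 hi, hiZ, ?_⟩
  have hcon : ∀ u ∈ B, u ∉ Z → ∀ v ∈ B, v ∉ Z → ∀ X ⊆ G, ∑ e ∈ X, x e = h X → u ∈ X → v ∉ X →
      False := by
    intro u hu huZ v hv hvZ X hX hXt huX hvX
    have h2 := (m.lat hh hZ hX hZt hXt).1
    have h3 := (m.lat hh (union_subset hZ hX) hB1 h2 hB3).2
    have h7 : Z ⊆ (Z ∪ X) ∩ B := fun e he => mem_inter.2 ⟨mem_union_left _ he, hZB he⟩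
    have h4 := hmin ((Z ∪ X) ∩ B) (mem_filter.2 ⟨mem_powerset.2 (inter_subset_right.trans hB1), by
      rw [ssubset_iff_of_subset h7]
      exact ⟨u, mem_inter.2 ⟨mem_union_right _ huX, hu⟩, huZ⟩, h3⟩)
    have h5 : ((Z ∪ X) ∩ B).card < B.card := by
      apply card_lt_card
      rw [ssubset_iff_of_subset inter_subset_right]
      refine ⟨v, hv, fun h6 => ?_⟩
      rcases mem_union.1 (mem_inter.1 h6).1 with h6 | h6
      · exact hvZ h6
      · exact hvX h6
    have h6 : B.card ≤ ((Z ∪ X) ∩ B).card := h4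
    omega
  have hEq : B = insert i Z := by
    apply Subset.antisymm _ (insert_subset hi hZB)
    intro k hk
    by_contra hkZ
    have hki : k ≠ i := fun h5 => hkZ (h5 ▸ mem_insert_self _ _)
    have hkZ' : k ∉ Z := fun h5 => hkZ (mem_insert_of_mem h5)
    obtain ⟨X, hX, hXt, h1⟩ := m.sep i (hB1 hi) k (hB1 hk) hki.symm
    rcases h1 with h1 | h1
    · exact hcon i hi hiZ k hk hkZ' X hX hXt h1.1 h1.2
    · exact hcon k hk hkZ' i hi hiZ X hX hXt h1.1 h1.2
  rw [← hEq]
  exact hB3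

/-- the case where `D` contains a zero -/
theorem Miss.case_in (hh : Sub G h) (hG : h G = 0) (m : Miss G h x D)
    (hz : ∃ e ∈ G, x e = 0 ∧ e ∈ D) : ∃ y, Sol G h y := by
  obtain ⟨i0, hi0G, hi0, hi0D⟩ := hz
  obtain ⟨p, hp, hmin⟩ := exists_min_image ((G ×ˢ G.powerset).filter
    (fun p => x p.1 = 0 ∧ p.1 ∈ D ∧ ∑ e ∈ p.2, x e = h p.2 ∧ p.1 ∈ p.2)) (fun p => p.2.card)
    ⟨(i0, G), mem_filter.2 ⟨mem_product.2 ⟨hi0G, mem_powerset.2 (Subset.refl _)⟩, hi0, hi0D, by
      show ∑ e ∈ G, x e = h G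
      rw [m.tot, hG], hi0G⟩⟩
  obtain ⟨i, Y⟩ := p
  rw [mem_filter, mem_product, mem_powerset] at hp
  obtain ⟨⟨hiG, hY⟩, hi, hiD, hYt, hiY⟩ := hp
  have hiG : i ∈ G := hiG
  have hY : Y ⊆ G := hY
  have hi : x i = 0 := hi
  have hiD : i ∈ D := hiD
  have hYt : ∑ e ∈ Y, x e = h Y := hYt
  have hiY : i ∈ Y := hiY
  have hmin' : ∀ j ∈ G, ∀ X ⊆ G, x j = 0 → j ∈ D → ∑ e ∈ X, x e = h X → j ∈ X →
      Y.card ≤ X.card := by
    intro j hj X hX h1 h2 h3 h4
    exact hmin (j, X) (mem_filter.2 ⟨mem_product.2 ⟨hj, mem_powerset.2 hX⟩, h1, h2, h3, h4⟩)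
  have hleast : ∀ X ⊆ G, ∑ e ∈ X, x e = h X → i ∈ X → Y ⊆ X := by
    intro X hX hXt hiX
    have h1 := hmin' i hiG (X ∩ Y) (inter_subset_right.trans hY) hi hiD
      (m.lat hh hX hY hXt hYt).2 (mem_inter.2 ⟨hiX, hiY⟩)
    have h2 := eq_of_subset_of_card_le (inter_subset_right : X ∩ Y ⊆ Y) h1
    rw [← h2]
    exact inter_subset_left
  have hZt := m.erase_tight hh hY hYt hiY hleast
  have hZG : Y.erase i ⊆ G := (erase_subset _ _).trans hY
  have hD : D.Nonempty := ⟨i, hiD⟩
  have hne : Y.erase i ≠ ∅ := by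
    intro h1
    have h2 : Y = {i} := by
      rw [← insert_erase hiY, h1]
      rfl
    rw [h2, sum_singleton, hi] at hYt
    have h3 : ({i} : Finset α) = G := by
      by_contra h4
      have := m.irr {i} (h2 ▸ hY) (singleton_ne_empty i) h4 (fun h5 => by
        have h6 := m.eq
        rw [← h5, sum_singleton, hi] at h6
        omega)
      omega
    have h4 : D = {i} := by
      apply Subset.antisymm
      · rw [h3]; exact m.sub
      · exact singleton_subset_iff.2 hiD
    have h5 := m.eq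
    rw [h4, sum_singleton, hi] at h5
    omega
  obtain ⟨j, hj, hAt⟩ := m.down_step hh hZG hZt hne
  have hjY := (mem_erase.1 hj).2
  have hji := (mem_erase.1 hj).1
  have hjG := hY hjY
  have hjD : j ∉ D := by
    intro hjD
    rcases m.val hh hG j hjG with h1 | h1 | h1
    · exact m.plus hh hjG h1 hjD
    · have h2 : ∑ e ∈ G.erase j, x e = h (G.erase j) := by
        have h4 := m.le (G.erase j) (erase_subset _ _)
        have h5 := hh.down (G.erase j) (erase_subset _ _) j hjG
        rw [insert_erase hjG, hG] at h5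
        have h6 := Finset.add_sum_erase G x hjG
        rw [m.tot] at h6
        omega
      exact notMem_erase j G (hleast (G.erase j) (erase_subset _ _) h2
        (mem_erase.2 ⟨fun h => hji h.symm, hiG⟩) hjY)
    · have h2 := hmin' j hjG (Y.erase i) hZG h1 hjD hZt hj
      have h3 := card_erase_lt_of_mem hiY
      omega
  refine m.edge hh hG (A := (Y.erase i).erase j) ((erase_subset _ _).trans hZG) hiG hjG
    (fun h => hji h.symm) ?_ (notMem_erase _ _) hAt ?_ (fun X hX h1 h2 => hleast X hX h1 h2 hjY)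
    hiD hjD (Or.inl hi)
  · intro h1
    exact notMem_erase i Y (mem_erase.1 h1).2
  · rw [insert_erase hj, insert_erase hiY]
    exact hYt

/-- the case where `D` contains no zero, but there is a zero -/
theorem Miss.case_out (hh : Sub G h) (hG : h G = 0) (m : Miss G h x D)
    (hz : ∃ e ∈ G, x e = 0) (hno : ∀ e ∈ G, x e = 0 → e ∉ D) : ∃ y, Sol G h y := by
  obtain ⟨j0, hj0G, hj0⟩ := hz
  obtain ⟨p, hp, hmax⟩ := exists_max_image ((G ×ˢ G.powerset).filter
    (fun p => x p.1 = 0 ∧ ∑ e ∈ p.2, x e = h p.2 ∧ p.1 ∉ p.2)) (fun p => p.2.card)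
    ⟨(j0, ∅), mem_filter.2 ⟨mem_product.2 ⟨hj0G, mem_powerset.2 (empty_subset _)⟩, hj0, by
      show ∑ e ∈ (∅ : Finset α), x e = h ∅
      rw [sum_empty, hh.empty], notMem_empty _⟩⟩
  obtain ⟨j, F⟩ := p
  rw [mem_filter, mem_product, mem_powerset] at hp
  obtain ⟨⟨hjG, hF⟩, hj, hFt, hjF⟩ := hp
  have hjG : j ∈ G := hjG
  have hF : F ⊆ G := hF
  have hj : x j = 0 := hj
  have hFt : ∑ e ∈ F, x e = h F := hFt
  have hjF : j ∉ F := hjF
  have hmax' : ∀ i ∈ G, ∀ X ⊆ G, x i = 0 → ∑ e ∈ X, x e = h X → i ∉ X →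
      X.card ≤ F.card := by
    intro i hi X hX h1 h3 h4
    exact hmax (i, X) (mem_filter.2 ⟨mem_product.2 ⟨hi, mem_powerset.2 hX⟩, h1, h3, h4⟩)
  have hgreat : ∀ X ⊆ G, ∑ e ∈ X, x e = h X → j ∉ X → X ⊆ F := by
    intro X hX hXt hjX
    have h1 := hmax' j hjG (F ∪ X) (union_subset hF hX) hj
      (m.lat hh hF hX hFt hXt).1 (fun h => by
        rcases mem_union.1 h with h | h
        · exact hjF h
        · exact hjX h)
    have h2 := eq_of_subset_of_card_le (subset_union_left : F ⊆ F ∪ X) h1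
    rw [h2]
    exact subset_union_right
  have hZt := m.insert_tight hh hG hF hFt hjG hgreat
  have hZG : insert j F ⊆ G := insert_subset hjG hF
  have hjD := hno j hjG hj
  have hne : insert j F ≠ G := by
    intro h1
    have h2 : ∑ e ∈ F, x e = 0 := by
      have h3 := m.tot
      rw [← h1, sum_insert hjF, hj] at h3
      omega
    rw [h2] at hFt
    have h3 : F = ∅ := by
      by_contra h4
      have := m.irr F hF h4 (fun h5 => hjF (h5 ▸ hjG)) (fun h5 => by
        have h6 := m.eq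
        rw [← h5, h2] at h6
        omega)
      omega
    have h4 : D = ∅ := by
      apply Subset.antisymm _ (empty_subset _)
      intro e he
      have h5 := m.sub he
      rw [← h1, h3] at h5
      rcases mem_insert.1 h5 with h6 | h6
      · exact absurd (h6 ▸ he) hjD
      · exact h6
    have h5 := m.eq
    rw [h4, sum_empty, hh.empty] at h5
    omega
  obtain ⟨i, hiG, hiZ, hBt⟩ := m.up_step hh hG hZG hZt hne
  have hij : i ≠ j := fun h => hiZ (h ▸ mem_insert_self _ _)
  have hiF : i ∉ F := fun h => hiZ (mem_insert_of_mem h)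
  have hiD : i ∈ D := by
    rcases m.val hh hG i hiG with h1 | h1 | h1
    · exfalso
      have h2 : ∑ e ∈ ({i} : Finset α), x e = h {i} := by
        have h3 := m.le {i} (singleton_subset_iff.2 hiG)
        have h4 := hh.up ∅ (empty_subset _) i hiG
        rw [hh.empty] at h4
        have h5 : h {i} ≤ 1 := by simpa using h4
        rw [sum_singleton] at h3 ⊢
        omega
      exact hiF (hgreat {i} (singleton_subset_iff.2 hiG) h2 (fun h => hij
        (mem_singleton.1 h).symm) (mem_singleton_self i))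
    · exact m.minus hh hiG h1
    · exfalso
      have h2 := hmax' i hiG (insert j F) hZG h1 hZt hiZ
      rw [card_insert_of_notMem hjF] at h2
      omega
  refine m.edge hh hG (A := F) hF hiG hjG hij hiF hjF hFt hBt (fun X hX h1 h2 => ?_)
    hiD hjD (Or.inr hj)
  by_contra h3
  exact hiF (hgreat X hX h1 h3 h2)

/-- below a minus there is a plus -/
theorem plus_below (hh : Sub G h) (hG : h G = 0) (hle : ∀ A ⊆ G, ∑ e ∈ A, x e ≤ h A)
    (htot : ∑ e ∈ G, x e = 0) {r : α} (hr : r ∈ G) (hr1 : x r = -1) :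
    ∃ t ∈ G, x t = 1 ∧ ∀ X ⊆ G, ∑ e ∈ X, x e = h X → r ∈ X → t ∈ X := by
  obtain ⟨Y, hY, hmin⟩ := exists_min_image
    (G.powerset.filter (fun X => r ∈ X ∧ ∑ e ∈ X, x e = h X)) (fun X => X.card)
    ⟨G, mem_filter.2 ⟨mem_powerset.2 (Subset.refl _), hr, by rw [htot, hG]⟩⟩
  rw [mem_filter, mem_powerset] at hY
  obtain ⟨hY, hrY, hYt⟩ := hY
  have hex : ∃ t ∈ Y, x t = 1 := by
    by_contra hcon
    push Not at hcon
    have h1 := Finset.add_sum_erase Y x hrY
    have h2 : ∑ e ∈ Y.erase r, x e ≤ 0 := by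
      apply Finset.sum_nonpos
      intro e he
      have h3 := (mem_erase.1 he).2
      have h4 := val hh hG hle htot e (hY h3)
      have h5 := hcon e h3
      omega
    have h3 := hh.nonneg Y hY
    omega
  obtain ⟨t, htY, ht⟩ := hex
  refine ⟨t, hY htY, ht, ?_⟩
  intro X hX hXt hrX
  have h1 : Y.card ≤ (X ∩ Y).card := hmin (X ∩ Y) (mem_filter.2 ⟨mem_powerset.2
    (inter_subset_right.trans hY), mem_inter.2 ⟨hrX, hrY⟩, (lat hh hle hX hY hXt hYt).2⟩)
  have h2 := eq_of_subset_of_card_le (inter_subset_right : X ∩ Y ⊆ Y) h1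
  rw [← h2] at htY
  exact (mem_inter.1 htY).1

/-- the case without zeros -/
theorem Miss.case_even (hh : Sub G h) (hG : h G = 0) (m : Miss G h x D)
    (hno : ∀ e ∈ G, x e ≠ 0) : ∃ y, Sol G h y := by
  have hne : D.Nonempty := by
    rw [nonempty_iff_ne_empty]
    intro h1
    have h5 := m.eq
    rw [h1, sum_empty, hh.empty] at h5
    omega
  obtain ⟨r, hrD⟩ := hne
  have hrG := m.sub hrD
  have hr1 : x r = -1 := by
    rcases m.val hh hG r hrG with h1 | h1 | h1
    · exact absurd hrD (m.plus hh hrG h1)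
    · exact h1
    · exact absurd h1 (hno r hrG)
  obtain ⟨t, htG, ht1, hcl⟩ := plus_below hh hG m.le m.tot hrG hr1
  have htD := m.plus hh htG ht1
  have hrt : r ≠ t := fun h1 => htD (h1 ▸ hrD)
  have hneg := m.neg hh hrD htD
  have hsum : ∀ S : Finset α, ∑ i ∈ S, (x i + root r t i + 1) =
      ∑ i ∈ S, (x i + root r t i) + S.card := by
    intro S
    rw [sum_add_distrib]
    simp
  refine sol_of_near hh hG ⟨fun e => x e + root r t e + 1, ?_, ?_, ?_⟩
  · intro S hS
    show ∑ i ∈ S, (x i + root r t i + 1) ≤ h S + S.card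
    rw [hsum, sum_add_distrib, sum_root]
    have h4 := m.le S hS
    by_cases h5 : r ∈ S
    · by_cases h6 : t ∈ S
      · rw [if_pos h5, if_pos h6]; omega
      · rw [if_pos h5, if_neg h6]
        have h7 : ∑ e ∈ S, x e ≠ h S := fun h8 => h6 (hcl S hS h8 h5)
        omega
    · rw [if_neg h5]
      split_ifs <;> omega
  · intro S hS
    show ∑ i ∈ S, (2 - (x i + root r t i + 1)) ≤ h S + S.card
    have h1 : ∑ i ∈ S, (2 - (x i + root r t i + 1)) = 2 * S.card -
        (∑ i ∈ S, (x i + root r t i) + S.card) := by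
      rw [sum_sub_distrib, hsum]
      simp
      ring
    rw [h1]
    have h2 := hneg S hS
    omega
  · have h1 : G.filter (fun i => x i + root r t i + 1 = 1) ⊆ {r, t} := by
      intro e he
      obtain ⟨h2, h3⟩ := mem_filter.1 he
      by_contra h4
      rw [mem_insert, mem_singleton, not_or] at h4
      unfold root at h3
      rw [if_neg h4.1, if_neg h4.2] at h3
      exact hno e h2 (by omega)
    exact (card_le_card h1).trans card_le_two

theorem sol_of_miss (hh : Sub G h) (hG : h G = 0) (m : Miss G h x D) : ∃ y, Sol G h y := by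
  by_cases hz : ∃ e ∈ G, x e = 0
  · by_cases hD : ∃ e ∈ G, x e = 0 ∧ e ∈ D
    · exact m.case_in hh hG hD
    · push Not at hD
      exact m.case_out hh hG hz hD
  · push Not at hz
    exact m.case_even hh hG hz

/-- exactly one violated inequality, no tight set for the zero vector except it -/
theorem sol_of_one (hh : Sub G h) (hG : h G = 0) (hle : ∀ A ⊆ G, ∑ e ∈ A, x e ≤ h A)
    (htot : ∑ e ∈ G, x e = 0)
    (hsep : ∀ i ∈ G, ∀ j ∈ G, i ≠ j → ∃ X ⊆ G, ∑ e ∈ X, x e = h X ∧
      ((i ∈ X ∧ j ∉ X) ∨ (j ∈ X ∧ i ∉ X)))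
    (hD : D ⊆ G) (hlt : h D + ∑ e ∈ D, x e < 0)
    (hoth : ∀ A ⊆ G, A ≠ D → 0 ≤ h A + ∑ e ∈ A, x e)
    (hirr : ∀ A ⊆ G, A ≠ ∅ → A ≠ G → A ≠ D → 1 ≤ h A) : ∃ y, Sol G h y := by
  by_cases hone : h D + ∑ e ∈ D, x e = -1
  · exact sol_of_miss hh hG ⟨hle, htot, hsep, hD, hone, hoth, hirr⟩
  have hlt2 : h D + ∑ e ∈ D, x e ≤ -2 := by omega
  have hval := val hh hG hle htot
  have hdn : ∀ e ∈ D, 0 ≤ h D + 1 + (∑ i ∈ D, x i - x e) := by
    intro e he
    have h2 := hoth (D.erase e) ((erase_subset _ _).trans hD) (by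
      intro h3
      apply notMem_erase e D
      rw [h3]
      exact he)
    have h3 := Finset.add_sum_erase D x he
    have h4 := hh.down (D.erase e) ((erase_subset _ _).trans hD) e (hD he)
    rw [insert_erase he] at h4
    omega
  have hup : ∀ e ∈ G, e ∉ D → 0 ≤ h D + 1 + (∑ i ∈ D, x i + x e) := by
    intro e he hne
    have h2 := hoth (insert e D) (insert_subset he hD) (by
      intro h3
      apply hne
      rw [← h3]
      exact mem_insert_self _ _)
    rw [sum_insert hne] at h2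
    have h4 := hh.up D hD e he
    omega
  have hin : ∀ e ∈ D, x e = -1 := by
    intro e he
    have h1 := hdn e he
    have h2 := hval e (hD he)
    omega
  have hout : ∀ e ∈ G, e ∉ D → x e = 1 := by
    intro e he hne
    have h1 := hup e he hne
    have h2 := hval e he
    omega
  have hne : D.Nonempty := by
    rw [nonempty_iff_ne_empty]
    intro h1
    rw [h1, sum_empty, hh.empty] at hlt
    omega
  obtain ⟨r, hrD⟩ := hne
  have hrG := hD hrD
  have hr1 := hin r hrD
  have heq : h D + ∑ e ∈ D, x e = -2 := by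
    have h1 := hdn r hrD
    omega
  obtain ⟨t, htG, ht1, hcl⟩ := plus_below hh hG hle htot hrG hr1
  have htD : t ∉ D := by
    intro h1
    have := hin t h1
    omega
  have hrt : r ≠ t := fun h1 => htD (h1 ▸ hrD)
  have htwo : ∀ A ⊆ G, t ∈ A → r ∉ A → 2 ≤ h A + ∑ e ∈ A, x e := by
    intro A hA htA hrA
    have h1 := hh.sub A hA D hD
    have h2 : ∑ e ∈ A ∪ D, x e + ∑ e ∈ A ∩ D, x e = ∑ e ∈ A, x e + ∑ e ∈ D, x e :=
      Finset.sum_union_inter
    have h3 := hoth (A ∪ D) (union_subset hA hD) (by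
      intro h6
      apply htD
      rw [← h6]
      exact mem_union_left _ htA)
    have h4 := hoth (A ∩ D) (inter_subset_left.trans hA) (by
      intro h6
      rw [← h6] at hrD
      exact hrA (mem_inter.1 hrD).1)
    omega
  have hrr : root r t r = 1 := by unfold root; rw [if_pos rfl, if_neg hrt]; norm_num
  have hrt' : root r t t = -1 := by
    unfold root; rw [if_pos rfl, if_neg (fun h => hrt h.symm)]; norm_num
  have hro : ∀ e, e ≠ r → e ≠ t → root r t e = 0 := by
    intro e h1 h2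
    unfold root
    rw [if_neg h1, if_neg h2]
    norm_num
  by_cases hc : ∀ S ⊆ G, r ∈ S → t ∉ S → ∑ e ∈ S, x e + 2 ≤ h S
  · -- two steps
    have hsum : ∀ S : Finset α, ∑ e ∈ S, (x e + 2 * root r t e) = ∑ e ∈ S, x e +
        2 * ((if r ∈ S then 1 else 0) - (if t ∈ S then 1 else 0)) := by
      intro S
      rw [sum_add_distrib, ← mul_sum, sum_root]
    have hy : ∀ e ∈ G, x e + 2 * root r t e = 1 ∨ x e + 2 * root r t e = -1 := by
      intro e he
      by_cases h5 : e = r
      · rw [h5, hrr, hr1]; left; norm_num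
      by_cases h6 : e = t
      · rw [h6, hrt', ht1]; right; norm_num
      rw [hro e h5 h6]
      by_cases h7 : e ∈ D
      · rw [hin e h7]; right; norm_num
      · rw [hout e he h7]; left; norm_num
    refine ⟨fun e => x e + 2 * root r t e, sol_of hh hG ?_ ?_ ?_ ?_⟩
    · intro S hS
      rw [hsum]
      have h4 := hle S hS
      by_cases h5 : r ∈ S
      · by_cases h6 : t ∈ S
        · rw [if_pos h5, if_pos h6]; omega
        · rw [if_pos h5, if_neg h6]
          have := hc S hS h5 h6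
          omega
      · rw [if_neg h5]
        split_ifs <;> omega
    · intro S hS
      rw [hsum]
      by_cases hSD : S = D
      · rw [hSD, if_pos hrD, if_neg htD]
        omega
      have h4 := hoth S hS hSD
      by_cases h6 : t ∈ S
      · by_cases h5 : r ∈ S
        · rw [if_pos h5, if_pos h6]; omega
        · rw [if_neg h5, if_pos h6]
          have := htwo S hS h6 h5
          omega
      · rw [if_neg h6]
        split_ifs <;> omega
    · intro e he
      rcases hy e he with h1 | h1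
      · exact Or.inl h1
      · exact Or.inr (Or.inl h1)
    · intro i hi j hj hij h1 h2
      have h1' : x i + 2 * root r t i = 0 := h1
      have := hy i hi
      omega
  · -- one step
    push Not at hc
    obtain ⟨S1, hS1, hrS, htS, hlt1⟩ := hc
    have hS1t : ∑ e ∈ S1, x e + 1 = h S1 := by
      have h1 := hle S1 hS1
      have h2 : ∑ e ∈ S1, x e ≠ h S1 := fun h8 => htS (hcl S1 hS1 h8 hrS)
      omega
    have hle' : ∀ A ⊆ G, ∑ e ∈ A, (x e + root r t e) ≤ h A := by
      intro S hS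
      rw [sum_add_distrib, sum_root]
      have h4 := hle S hS
      by_cases h5 : r ∈ S
      · by_cases h6 : t ∈ S
        · rw [if_pos h5, if_pos h6]; omega
        · rw [if_pos h5, if_neg h6]
          have h7 : ∑ e ∈ S, x e ≠ h S := fun h8 => h6 (hcl S hS h8 h5)
          omega
      · rw [if_neg h5]
        split_ifs <;> omega
    have htot' : ∑ e ∈ G, (x e + root r t e) = 0 := by
      rw [sum_add_distrib, sum_root, if_pos hrG, if_pos htG, htot]
      norm_num
    have hone1 : ∀ e ∈ G, e ≠ r → e ≠ t → ∃ X ⊆ G, ∑ i ∈ X, (x i + root r t i) = h X ∧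
        ((e ∈ X ∧ ∀ k, k ≠ e → k ∉ X) ∨ (e ∉ X ∧ ∀ k ∈ G, k ≠ e → k ∈ X)) := by
      intro e he h5 h6
      by_cases h7 : e ∈ D
      · refine ⟨G.erase e, erase_subset _ _, ?_, Or.inr ⟨notMem_erase _ _,
          fun k hk hke => mem_erase.2 ⟨hke, hk⟩⟩⟩
        have h8 := hle' (G.erase e) (erase_subset _ _)
        have h9 := hh.down (G.erase e) (erase_subset _ _) e he
        rw [insert_erase he, hG] at h9
        have h10 := Finset.add_sum_erase G (fun i => x i + root r t i) he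
        have h11 : x e + root r t e + ∑ i ∈ G.erase e, (x i + root r t i) =
            ∑ i ∈ G, (x i + root r t i) := h10
        rw [htot', hro e h5 h6, hin e h7] at h11
        omega
      · refine ⟨{e}, singleton_subset_iff.2 he, ?_, Or.inl ⟨mem_singleton_self _,
          fun k hk h => hk (mem_singleton.1 h)⟩⟩
        have h8 := hle' {e} (singleton_subset_iff.2 he)
        have h9 := hh.up ∅ (empty_subset _) e he
        rw [hh.empty] at h9
        have h10 : h {e} ≤ 1 := by simpa using h9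
        rw [sum_singleton, hro e h5 h6, hout e he h7] at h8 ⊢
        omega
    refine sol_of_miss (x := fun e => x e + root r t e) (D := D) hh hG
      ⟨hle', htot', ?_, hD, ?_, ?_, hirr⟩
    · intro i hi j hj hij
      by_cases hi1 : i = r ∨ i = t
      · by_cases hj1 : j = r ∨ j = t
        · refine ⟨S1, hS1, ?_, ?_⟩
          · rw [sum_add_distrib, sum_root, if_pos hrS, if_neg htS]
            omega
          · rcases hi1 with hi1 | hi1 <;> rcases hj1 with hj1 | hj1
            · exact absurd (hi1.trans hj1.symm) hij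
            · rw [hi1, hj1]; exact Or.inl ⟨hrS, htS⟩
            · rw [hi1, hj1]; exact Or.inr ⟨hrS, htS⟩
            · exact absurd (hi1.trans hj1.symm) hij
        · push Not at hj1
          obtain ⟨X, hX, hXt, h1⟩ := hone1 j hj hj1.1 hj1.2
          refine ⟨X, hX, hXt, ?_⟩
          rcases h1 with h1 | h1
          · exact Or.inr ⟨h1.1, h1.2 i hij⟩
          · exact Or.inl ⟨h1.2 i hi hij, h1.1⟩
      · push Not at hi1
        obtain ⟨X, hX, hXt, h1⟩ := hone1 i hi hi1.1 hi1.2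
        refine ⟨X, hX, hXt, ?_⟩
        rcases h1 with h1 | h1
        · exact Or.inl ⟨h1.1, h1.2 j hij.symm⟩
        · exact Or.inr ⟨h1.2 j hj hij.symm, h1.1⟩
    · rw [sum_add_distrib, sum_root, if_pos hrD, if_neg htD]
      omega
    · intro A hA hAD
      rw [sum_add_distrib, sum_root]
      have h4 := hoth A hA hAD
      by_cases h6 : t ∈ A
      · by_cases h5 : r ∈ A
        · rw [if_pos h5, if_pos h6]; omega
        · rw [if_neg h5, if_pos h6]
          have := htwo A hA h6 h5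
          omega
      · rw [if_neg h6]
        split_ifs <;> omega

/-- a vertex `x` such that at most one set `D` has `-x(D) > h(D)` -/
theorem sol_of_vertex (n : ℕ) : ∀ (G : Finset α) (h : Finset α → ℤ) (x : α → ℤ) (D : Finset α),
    G.card = n → Sub G h → h G = 0 → (∀ A ⊆ G, ∑ e ∈ A, x e ≤ h A) → ∑ e ∈ G, x e = 0 →
    (∀ i ∈ G, ∀ j ∈ G, i ≠ j → ∃ X ⊆ G, ∑ e ∈ X, x e = h X ∧
      ((i ∈ X ∧ j ∉ X) ∨ (j ∈ X ∧ i ∉ X))) →
    (∀ A ⊆ G, A ≠ D → 0 ≤ h A + ∑ e ∈ A, x e) → ∃ y, Sol G h y := by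
  induction n using Nat.strong_induction_on with
  | _ n ih =>
    intro G h x D hn hh hG hle htot hsep hoth
    by_cases hS : ∃ S ⊆ G, S ≠ ∅ ∧ S ≠ G ∧ S ≠ D ∧ h S ≤ 0
    · obtain ⟨S, hS, hS1, hS2, hS3, hS4⟩ := hS
      have hS0 : h S = 0 := le_antisymm hS4 (hh.nonneg S hS)
      have hxS : ∑ e ∈ S, x e = 0 := by
        have h1 := hle S hS
        have h2 := hoth S hS hS3
        omega
      have hc1 : S.card < n := by
        rw [← hn]
        exact card_lt_card (hS.ssubset_of_ne hS2)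
      have hc2 : (G \ S).card < n := by
        rw [← hn]
        apply card_lt_card
        rw [ssubset_iff_of_subset sdiff_subset]
        obtain ⟨s, hs⟩ := nonempty_iff_ne_empty.2 hS1
        exact ⟨s, hS hs, fun h => (mem_sdiff.1 h).2 hs⟩
      have hun : ∀ A ⊆ G \ S, ∑ e ∈ S ∪ A, x e = ∑ e ∈ A, x e := by
        intro A hA
        rw [sum_union, hxS, zero_add]
        rw [disjoint_left]
        intro e h1 h2
        exact (mem_sdiff.1 (hA h2)).2 h1
      have hsubG : ∀ A ⊆ G \ S, S ∪ A ⊆ G := fun A hA => union_subset hS (hA.trans sdiff_subset)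
      obtain ⟨y, hy⟩ := ih S.card hc1 S h x D rfl (hh.restrict hS) hS0
        (fun A hA => hle A (hA.trans hS)) hxS
        (by
          intro i hi j hj hij
          obtain ⟨X, hX, hXt, h1⟩ := hsep i (hS hi) j (hS hj) hij
          refine ⟨X ∩ S, inter_subset_right, (lat hh hle hX hS hXt (by rw [hxS, hS0])).2, ?_⟩
          rcases h1 with h1 | h1
          · exact Or.inl ⟨mem_inter.2 ⟨h1.1, hi⟩, fun h => h1.2 (mem_inter.1 h).1⟩
          · exact Or.inr ⟨mem_inter.2 ⟨h1.1, hj⟩, fun h => h1.2 (mem_inter.1 h).1⟩)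
        (fun A hA hAD => hoth A (hA.trans hS) hAD)
      obtain ⟨z, hz⟩ := ih (G \ S).card hc2 (G \ S) (fun T => h (S ∪ T)) x (D \ S) rfl
        (hh.contract hS hS0) (by
          show h (S ∪ (G \ S)) = 0
          rw [union_sdiff_of_subset hS, hG])
        (by
          intro A hA
          have h1 := hle (S ∪ A) (hsubG A hA)
          rw [hun A hA] at h1
          exact h1)
        (by
          have h1 := hun (G \ S) (Subset.refl _)
          rw [union_sdiff_of_subset hS, htot] at h1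
          exact h1.symm)
        (by
          intro i hi j hj hij
          obtain ⟨hiG, hiS⟩ := mem_sdiff.1 hi
          obtain ⟨hjG, hjS⟩ := mem_sdiff.1 hj
          obtain ⟨X, hX, hXt, h1⟩ := hsep i hiG j hjG hij
          have h2 := (lat hh hle hS hX (by rw [hxS, hS0]) hXt).1
          have h3 : X \ S ⊆ G \ S := sdiff_subset_sdiff hX (Subset.refl _)
          refine ⟨X \ S, h3, ?_, ?_⟩
          · show ∑ e ∈ X \ S, x e = h (S ∪ X \ S)
            rw [← hun _ h3, union_sdiff_self_eq_union, h2]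
          · rcases h1 with h1 | h1
            · exact Or.inl ⟨mem_sdiff.2 ⟨h1.1, hiS⟩, fun h => h1.2 (mem_sdiff.1 h).1⟩
            · exact Or.inr ⟨mem_sdiff.2 ⟨h1.1, hjS⟩, fun h => h1.2 (mem_sdiff.1 h).1⟩)
        (by
          intro A hA hAD
          have h1 := hoth (S ∪ A) (hsubG A hA) (by
            intro h2
            apply hAD
            rw [← h2]
            ext e
            rw [mem_sdiff, mem_union]
            constructor
            · intro he
              exact ⟨Or.inr he, (mem_sdiff.1 (hA he)).2⟩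
            · intro he
              exact he.1.resolve_left he.2)
          rw [hun A hA] at h1
          exact h1)
      exact ⟨_, glue hh hS hS0 hy hz⟩
    · push Not at hS
      by_cases hD : D ⊆ G ∧ h D + ∑ e ∈ D, x e < 0
      · refine sol_of_one hh hG hle htot hsep hD.1 hD.2 hoth ?_
        intro A hA h1 h2 h3
        have := hS A hA (nonempty_iff_ne_empty.2 h1) h2 h3
        omega
      · refine ⟨x, hle, ?_, by rw [htot, hG], hsep⟩
        intro A hA
        by_cases h1 : A = D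
        · rw [h1] at hA ⊢
          by_contra h2
          exact hD ⟨hA, by omega⟩
        · have := hoth A hA h1
          omega

/-- `q` has a vertex next to the solutions on `I`: a vertex `u` of the base polytope of `q` such
that `2 - u` violates exactly one of the inequalities of `q` -/
def NearMiss {α : Type*} [DecidableEq α] (I : Finset α) (q : Finset α → ℤ) : Prop :=
  ∃ u : α → ℤ, (∀ S ⊆ I, ∑ i ∈ S, u i ≤ q S) ∧ ∑ i ∈ I, u i = I.card ∧
    (∀ i ∈ I, ∀ j ∈ I, i ≠ j → ∃ X ⊆ I, ∑ e ∈ X, u e = q X ∧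
      ((i ∈ X ∧ j ∉ X) ∨ (j ∈ X ∧ i ∉ X))) ∧
    ∃ D ⊆ I, q D < ∑ i ∈ D, (2 - u i) ∧ ∀ S ⊆ I, S ≠ D → ∑ i ∈ S, (2 - u i) ≤ q S

theorem NearMiss.congr {I : Finset α} {g g' : Finset α → ℤ}
    (hg : ∀ S ⊆ I, g S = g' S) (h : NearMiss I g) : NearMiss I g' := by
  obtain ⟨u, h1, h2, h3, D, hD, h4, h5⟩ := h
  refine ⟨u, fun S hS => ?_, h2, fun i hi j hj hij => ?_, D, hD, ?_, fun S hS hSD => ?_⟩
  · rw [← hg S hS]; exact h1 S hS
  · obtain ⟨X, hX, h6, h7⟩ := h3 i hi j hj hij
    exact ⟨X, hX, by rw [← hg X hX]; exact h6, h7⟩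
  · rw [← hg D hD]; exact h4
  · rw [← hg S hS]; exact h5 S hS hSD

theorem sol_of_nearMiss (hh : Sub G h) (hG : h G = 0)
    (hp : NearMiss G (fun S => h S + S.card)) : ∃ x, Sol G h x := by
  obtain ⟨u, h1, h2, h3, D, hD, -, h5⟩ := hp
  have hsum : ∀ S : Finset α, ∑ i ∈ S, (u i - 1) = ∑ i ∈ S, u i - S.card := by
    intro S
    rw [sum_sub_distrib]
    simp
  have hsum2 : ∀ S : Finset α, ∑ i ∈ S, (2 - u i) = 2 * S.card - ∑ i ∈ S, u i := by
    intro S
    rw [sum_sub_distrib]
    simp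
    ring
  refine sol_of_vertex G.card G h (fun e => u e - 1) D rfl hh hG ?_ ?_ ?_ ?_
  · intro A hA
    have a1 : ∑ i ∈ A, u i ≤ h A + A.card := h1 A hA
    rw [hsum]
    omega
  · rw [hsum, h2]
    ring
  · intro i hi j hj hij
    obtain ⟨X, hX, h6, h7⟩ := h3 i hi j hj hij
    refine ⟨X, hX, ?_, h7⟩
    have h8 : ∑ e ∈ X, u e = h X + X.card := h6
    rw [hsum, h8]
    ring
  · intro A hA hAD
    have a1 : ∑ i ∈ A, (2 - u i) ≤ h A + A.card := h5 A hA hAD
    rw [hsum2] at a1
    rw [hsum]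
    omega

end Pool.Agent.P901b45m
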