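import Pool.Agent.Lib.P901b45e.Excess

/-!
Palindromic chains and cyclic symmetry, for Frank's question on complementary vertices of integer
2-polymatroids (MP_901b45_co).
-/

set_option autoImplicit false

namespace Pool.Agent.P901b45m

open Finset Pool.Agent.P901b45e

/-- for some order of `I` (given by the ranks `r i` of the elements) every beginning `P` satisfies
`q P - |P| = q (I \ P) - |I \ P|` -/
def PalinChain {α : Type*} (I : Finset α) (q : Finset α → ℤ) : Prop :=
  ∃ r : α → ℕ, Set.InjOn r I ∧ ∀ k : ℕ,
    q (I.filter fun i => r i < k) - (I.filter fun i => r i < k).card =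
      q (I.filter fun i => k ≤ r i) - (I.filter fun i => k ≤ r i).card

/-- some permutation which permutes `I` in one cycle leaves `q` invariant -/
def Cyc {α : Type*} [DecidableEq α] (I : Finset α) (q : Finset α → ℤ) : Prop :=
  ∃ σ : Equiv.Perm α, σ.IsCycleOn I ∧ ∀ S ⊆ I, q (S.image σ) = q S

theorem PalinChain.congr {α : Type*} {I : Finset α} {g g' : Finset α → ℤ}
    (hg : ∀ S ⊆ I, g S = g' S) (h : PalinChain I g) : PalinChain I g' := by
  obtain ⟨r, h1, h2⟩ := h
  refine ⟨r, h1, fun k => ?_⟩
  rw [← hg _ (filter_subset _ _), ← hg _ (filter_subset _ _)]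
  exact h2 k

variable {α : Type*} [DecidableEq α] {G : Finset α} {h : Finset α → ℤ}

/-- the greedy vector for the order given by the ranks `r i` -/
theorem greedy_rank (h0 : h ∅ = 0)
    (hs : ∀ A ⊆ G, ∀ B ⊆ G, h (A ∪ B) + h (A ∩ B) ≤ h A + h B) {r : α → ℕ}
    (hr : Set.InjOn r G) {x : α → ℤ}
    (hx : ∀ i ∈ G, x i = h (G.filter fun j => r j ≤ r i) - h (G.filter fun j => r j < r i)) :
    ∀ k : ℕ, (∀ A ⊆ G.filter (fun i => r i < k), ∑ e ∈ A, x e ≤ h A) ∧
      ∑ e ∈ G.filter (fun i => r i < k), x e = h (G.filter fun i => r i < k) := by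
  intro k
  induction k with
  | zero =>
    have e : G.filter (fun i => r i < 0) = ∅ := by
      rw [filter_eq_empty_iff]
      intro i _
      omega
    rw [e]
    refine ⟨fun A hA => ?_, by simp [h0]⟩
    rw [subset_empty.1 hA]
    simp [h0]
  | succ k ih =>
    obtain ⟨ih1, ih2⟩ := ih
    by_cases hex : ∃ a ∈ G, r a = k
    swap
    · have e : G.filter (fun i => r i < k + 1) = G.filter (fun i => r i < k) := by
        refine filter_congr fun i hi => ?_
        have : r i ≠ k := fun h => hex ⟨i, hi, h⟩
        omega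
      rw [e]
      exact ⟨ih1, ih2⟩
    obtain ⟨a, ha, hak⟩ := hex
    set P := G.filter (fun i => r i < k) with hP
    have haP : a ∉ P := by
      rw [hP, mem_filter]
      rintro ⟨_, h1⟩
      omega
    have e : G.filter (fun i => r i < k + 1) = insert a P := by
      ext i
      rw [mem_insert, mem_filter, hP, mem_filter]
      constructor
      · rintro ⟨h1, h2⟩
        by_cases h3 : r i < k
        · exact Or.inr ⟨h1, h3⟩
        · left
          exact hr h1 ha (by omega)
      · rintro (rfl | ⟨h1, h2⟩)
        · exact ⟨ha, by omega⟩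
        · exact ⟨h1, by omega⟩
    have e1 : (G.filter fun j => r j ≤ r a) = insert a P := by
      rw [← e]
      refine filter_congr fun i _ => ?_
      omega
    have e2 : (G.filter fun j => r j < r a) = P := by
      rw [hP]
      refine filter_congr fun i _ => ?_
      omega
    have hxa : x a = h (insert a P) - h P := by
      rw [hx a ha, e1, e2]
    have hPG : P ⊆ G := filter_subset _ _
    rw [e]
    refine ⟨fun A hA => ?_, ?_⟩
    · by_cases haA : a ∈ A
      swap
      · refine ih1 A fun i hi => ?_
        rcases mem_insert.1 (hA hi) with rfl | h1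
        · exact absurd hi haA
        · exact h1
      have hAG : A ⊆ G := fun i hi => by
        rcases mem_insert.1 (hA hi) with rfl | h1
        · exact ha
        · exact hPG h1
      have h1 := ih1 (A.erase a) (fun i hi => by
        rw [mem_erase] at hi
        rcases mem_insert.1 (hA hi.2) with h2 | h2
        · exact absurd h2 hi.1
        · exact h2)
      have h2 := hs A hAG P hPG
      have e3 : A ∪ P = insert a P := by
        ext i
        rw [mem_union, mem_insert]
        constructor
        · rintro (h3 | h3)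
          · exact mem_insert.1 (hA h3)
          · exact Or.inr h3
        · rintro (rfl | h3)
          · exact Or.inl haA
          · exact Or.inr h3
      have e4 : A ∩ P = A.erase a := by
        ext i
        rw [mem_inter, mem_erase]
        constructor
        · rintro ⟨h3, h4⟩
          exact ⟨fun h5 => haP (h5 ▸ h4), h3⟩
        · rintro ⟨h3, h4⟩
          refine ⟨h4, ?_⟩
          rcases mem_insert.1 (hA h4) with h5 | h5
          · exact absurd h5 h3
          · exact h5
      rw [e3, e4] at h2
      rw [← add_sum_erase A x haA, hxa]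
      linarith
    · rw [sum_insert haP, hxa, ih2]
      ring

/-- A palindromic chain gives a vector `x` such that `x` and `-x` are vertices. -/
theorem sol_of_palin (hh : Sub G h) (_hG : h G = 0)
    (hp : PalinChain G (fun S => h S + S.card)) : ∃ x, Sol G h x := by
  obtain ⟨r, hr, hp⟩ := hp
  have hp' : ∀ k : ℕ, h (G.filter fun i => r i < k) = h (G.filter fun i => k ≤ r i) := by
    intro k
    have := hp k
    simp only [add_sub_cancel_right] at this
    exact this
  set x : α → ℤ := fun i =>
    h (G.filter fun j => r j ≤ r i) - h (G.filter fun j => r j < r i) with hx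
  have F := greedy_rank hh.empty hh.sub hr (x := x) (fun i _ => rfl)
  set N := G.sup r with hN
  have hrN : ∀ i ∈ G, r i ≤ N := fun i hi => le_sup hi
  have eG : G.filter (fun i => r i < N + 1) = G := by
    rw [filter_eq_self]
    intro i hi
    have := hrN i hi
    omega
  -- the reversed order
  have hr' : Set.InjOn (fun i => N - r i) G := by
    intro i hi j hj hij
    have h1 := hrN i hi
    have h2 := hrN j hj
    apply hr hi hj
    have h3 : N - r i = N - r j := hij
    omega
  have F' := greedy_rank hh.empty hh.sub hr' (x := fun i => -x i) (by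
    intro i hi
    have h1 := hrN i hi
    have e1 : (G.filter fun j => N - r j ≤ N - r i) = G.filter fun j => r i ≤ r j := by
      refine filter_congr fun j hj => ?_
      have := hrN j hj
      omega
    have e2 : (G.filter fun j => N - r j < N - r i) = G.filter fun j => r i + 1 ≤ r j := by
      refine filter_congr fun j hj => ?_
      have := hrN j hj
      omega
    have e3 : (G.filter fun j => r j ≤ r i) = G.filter fun j => r j < r i + 1 := by
      refine filter_congr fun j _ => ?_
      omega
    show -(h (G.filter fun j => r j ≤ r i) - h (G.filter fun j => r j < r i)) = _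
    rw [e1, e2, e3, hp' (r i), hp' (r i + 1)]
    ring)
  have eG' : G.filter (fun i => N - r i < N + 1) = G := by
    rw [filter_eq_self]
    intro i hi
    omega
  refine ⟨x, ?_, ?_, ?_, ?_⟩
  · intro A hA
    exact (F (N + 1)).1 A (by rw [eG]; exact hA)
  · intro A hA
    have h1 := (F' (N + 1)).1 A (by rw [eG']; exact hA)
    rwa [sum_neg_distrib] at h1
  · have h1 := (F (N + 1)).2
    rwa [eG] at h1
  · intro i hi j hj hij
    have hne : r i ≠ r j := fun h1 => hij (hr hi hj h1)
    rcases Nat.lt_or_ge (r i) (r j) with h1 | h1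
    · refine ⟨G.filter fun k => r k < r j, filter_subset _ _, (F (r j)).2, Or.inl ⟨?_, ?_⟩⟩
      · exact mem_filter.2 ⟨hi, h1⟩
      · intro h2
        have := (mem_filter.1 h2).2
        omega
    · refine ⟨G.filter fun k => r k < r i, filter_subset _ _, (F (r i)).2, Or.inr ⟨?_, ?_⟩⟩
      · exact mem_filter.2 ⟨hj, by omega⟩
      · intro h2
        have := (mem_filter.1 h2).2
        omega

/-! ### Concave sequences with steps in `{-1, 0, 1}` -/

theorem anti {c : ℕ → ℤ} {n : ℕ} (hc : ∀ j, j + 2 ≤ n → c (j + 2) + c j ≤ 2 * c (j + 1)) (i : ℕ) :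
    ∀ j, i ≤ j → j < n → c (j + 1) - c j ≤ c (i + 1) - c i := by
  intro j hij
  induction j, hij using Nat.le_induction with
  | base => intro _; exact le_rfl
  | succ j hij ih =>
    intro hj
    have h1 := ih (by omega)
    have h2 := hc j (by omega)
    linarith

theorem le_of_steps {c : ℕ → ℤ} {a : ℕ} (s : ℤ) : ∀ b, a ≤ b →
    (∀ j, a ≤ j → j < b → c (j + 1) - c j ≤ s) → c b ≤ c a + s * (b - a : ℕ) := by
  intro b hab
  induction b, hab using Nat.le_induction with
  | base => intro _; simp
  | succ b hab ih =>
    intro hj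
    have h1 := ih fun j h1 h2 => hj j h1 (by omega)
    have h2 := hj b hab (by omega)
    have h3 : ((b + 1 - a : ℕ) : ℤ) = (b - a : ℕ) + 1 := by
      have : b + 1 - a = (b - a) + 1 := by omega
      rw [this]
      push_cast
      ring
    rw [h3]
    linarith

theorem ge_of_steps {c : ℕ → ℤ} {a : ℕ} (s : ℤ) (b : ℕ) (hab : a ≤ b)
    (hj : ∀ j, a ≤ j → j < b → s ≤ c (j + 1) - c j) : c a + s * (b - a : ℕ) ≤ c b := by
  have h1 := le_of_steps (c := fun j => -c j) (a := a) (-s) b hab fun j h1 h2 => by
    have := hj j h1 h2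
    linarith
  linarith

theorem concave_symm {c : ℕ → ℤ} {n : ℕ}
    (hc : ∀ j, j + 2 ≤ n → c (j + 2) + c j ≤ 2 * c (j + 1))
    (hup : ∀ j < n, c (j + 1) - c j ≤ 1) (hdn : ∀ j < n, -1 ≤ c (j + 1) - c j)
    (h0 : c 0 = 0) (hn : c n = 0) : ∀ a b, a ≤ b → a + b = n → c a = c b := by
  intro a b hab hn2
  have ha1 := le_of_steps (c := c) (a := 0) 1 a (by omega) fun j _ h2 => hup j (by omega)
  have hb1 := ge_of_steps (c := c) (a := b) (-1) n (by omega) fun j _ h2 => hdn j (by omega)
  have e1 : ((a - 0 : ℕ) : ℤ) = a := by simp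
  have e2 : ((n - b : ℕ) : ℤ) = a := by
    have : n - b = a := by omega
    rw [this]
  rw [e1, h0] at ha1
  rw [e2, hn] at hb1
  by_contra hne
  rcases lt_or_gt_of_ne hne with hlt | hgt
  · -- some step between `a` and `b` is `1`
    obtain ⟨j, hj1, hj2, hj3⟩ : ∃ j, a ≤ j ∧ j < b ∧ 1 ≤ c (j + 1) - c j := by
      by_contra hcon
      push Not at hcon
      have h1 := le_of_steps (c := c) (a := a) 0 b hab fun j h1 h2 => by
        have := hcon j h1 h2
        omega
      simp only [zero_mul, add_zero] at h1
      omega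
    have h2 := ge_of_steps (c := c) (a := 0) 1 a (by omega) fun i _ h2 => by
      have h3 := anti hc i j (by omega) (by omega)
      linarith
    rw [e1, h0] at h2
    linarith
  · obtain ⟨j, hj1, hj2, hj3⟩ : ∃ j, a ≤ j ∧ j < b ∧ c (j + 1) - c j ≤ -1 := by
      by_contra hcon
      push Not at hcon
      have h1 := ge_of_steps (c := c) (a := a) 0 b hab fun j h1 h2 => by
        have := hcon j h1 h2
        omega
      simp only [zero_mul, add_zero] at h1
      omega
    have h2 := le_of_steps (c := c) (a := b) (-1) n (by omega) fun i h1 h2 => by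
      have h3 := anti hc j i (by omega) h2
      linarith
    rw [e2, hn] at h2
    linarith

/-! ### Cyclic symmetry -/

theorem Cyc.congr {I : Finset α} {g g' : Finset α → ℤ}
    (hg : ∀ S ⊆ I, g S = g' S) (h : Cyc I g) : Cyc I g' := by
  obtain ⟨σ, h1, h2⟩ := h
  refine ⟨σ, h1, fun S hS => ?_⟩
  have h3 : S.image σ ⊆ I := by
    intro i hi
    obtain ⟨j, hj, rfl⟩ := mem_image.1 hi
    exact h1.1.mapsTo (hS hj)
  rw [← hg _ h3, ← hg _ hS]
  exact h2 S hS

theorem palin_of_cyc (hh : Sub G h) (hG : h G = 0)
    (hc : Cyc G (fun S => h S + S.card)) : PalinChain G (fun S => h S + S.card) := by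
  obtain ⟨σ, hσ, hinv⟩ := hc
  have inv1 : ∀ S ⊆ G, h (S.image σ) = h S := by
    intro S hS
    have h1 : h (S.image σ) + ((S.image σ).card : ℤ) = h S + S.card := hinv S hS
    rw [card_image_of_injective S σ.injective] at h1
    linarith
  rcases G.eq_empty_or_nonempty with rfl | ⟨a₀, ha₀⟩
  · exact ⟨fun _ => 0, by simp, fun k => by simp⟩
  set n := G.card with hn
  set a : ℕ → α := fun t => (σ ^ t) a₀ with ha
  have hsucc : ∀ t, σ (a t) = a (t + 1) := by
    intro t
    show σ ((σ ^ t) a₀) = (σ ^ (t + 1)) a₀
    rw [pow_succ']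
    rfl
  have haG : ∀ t, a t ∈ G := by
    intro t
    induction t with
    | zero => exact ha₀
    | succ t ih =>
      rw [← hsucc]
      exact hσ.1.mapsTo ih
  have hinj : ∀ s t, s < n → t < n → a s = a t → s = t := by
    intro s t hs ht hst
    have h1 := (hσ.pow_apply_eq_pow_apply ha₀).1 hst
    have h2 : s % n = t % n := h1
    rwa [Nat.mod_eq_of_lt hs, Nat.mod_eq_of_lt ht] at h2
  set P : ℕ → Finset α := fun k => (range k).image a with hP
  have hPG : ∀ k, P k ⊆ G := by
    intro k i hi
    obtain ⟨t, _, rfl⟩ := mem_image.1 hi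
    exact haG t
  have memP : ∀ k i, i ∈ P k ↔ ∃ t < k, a t = i := by
    intro k i
    show i ∈ (range k).image a ↔ _
    rw [mem_image]
    simp only [mem_range]
  have memQ : ∀ k i, i ∈ (P k).image σ ↔ ∃ t < k, a (t + 1) = i := by
    intro k i
    rw [mem_image]
    constructor
    · rintro ⟨j, hj, rfl⟩
      obtain ⟨t, ht, rfl⟩ := (memP k j).1 hj
      exact ⟨t, ht, (hsucc t).symm⟩
    · rintro ⟨t, ht, rfl⟩
      exact ⟨a t, (memP k _).2 ⟨t, ht, rfl⟩, hsucc t⟩
  -- powers
  have invk : ∀ k, ∀ S ⊆ G, h (S.image fun i => (σ ^ k) i) = h S := by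
    intro k
    induction k with
    | zero =>
      intro S _
      have : (S.image fun i => (σ ^ 0) i) = S := by
        ext i
        simp
      rw [this]
    | succ k ih =>
      intro S hS
      have h1 : (S.image fun i => (σ ^ (k + 1)) i) = (S.image σ).image fun i => (σ ^ k) i := by
        rw [image_image]
        refine image_congr fun i _ => ?_
        show (σ ^ (k + 1)) i = (σ ^ k) (σ i)
        rw [pow_succ]
        rfl
      have h2 : S.image σ ⊆ G := by
        intro i hi
        obtain ⟨j, hj, rfl⟩ := mem_image.1 hi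
        exact hσ.1.mapsTo (hS hj)
      rw [h1, ih _ h2, inv1 S hS]
  set c : ℕ → ℤ := fun k => h (P k) with hc
  have hcc : ∀ j, j + 2 ≤ n → c (j + 2) + c j ≤ 2 * c (j + 1) := by
    intro j hj
    have h1 := hh.sub (P (j + 1)) (hPG _) ((P (j + 1)).image σ) (by
      intro i hi
      obtain ⟨t, _, rfl⟩ := (memQ _ _).1 hi
      exact haG _)
    have e1 : P (j + 1) ∪ (P (j + 1)).image σ = P (j + 2) := by
      ext i
      rw [mem_union, memP, memQ, memP]
      constructor
      · rintro (⟨t, ht, rfl⟩ | ⟨t, ht, rfl⟩)
        · exact ⟨t, by omega, rfl⟩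
        · exact ⟨t + 1, by omega, rfl⟩
      · rintro ⟨t, ht, rfl⟩
        by_cases h2 : t < j + 1
        · exact Or.inl ⟨t, h2, rfl⟩
        · refine Or.inr ⟨j, by omega, ?_⟩
          have : t = j + 1 := by omega
          rw [this]
    have e2 : P (j + 1) ∩ (P (j + 1)).image σ = (P j).image σ := by
      ext i
      rw [mem_inter, memP, memQ, memQ]
      constructor
      · rintro ⟨⟨s, hs, hs'⟩, t, ht, ht'⟩
        have h2 := hinj s (t + 1) (by omega) (by omega) (hs'.trans ht'.symm)
        exact ⟨t, by omega, ht'⟩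
      · rintro ⟨t, ht, rfl⟩
        exact ⟨⟨t + 1, by omega, rfl⟩, t, by omega, rfl⟩
    rw [e1, e2, inv1 _ (hPG _), inv1 _ (hPG _)] at h1
    show h (P (j + 2)) + h (P j) ≤ 2 * h (P (j + 1))
    linarith
  have hPs : ∀ j, P (j + 1) = insert (a j) (P j) := by
    intro j
    show (range (j + 1)).image a = insert (a j) ((range j).image a)
    rw [range_add_one, image_insert]
  have hup : ∀ j < n, c (j + 1) - c j ≤ 1 := by
    intro j _
    have h1 := hh.up (P j) (hPG j) (a j) (haG j)
    show h (P (j + 1)) - h (P j) ≤ 1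
    rw [hPs]
    linarith
  have hdn : ∀ j < n, -1 ≤ c (j + 1) - c j := by
    intro j _
    have h1 := hh.down (P j) (hPG j) (a j) (haG j)
    show -1 ≤ h (P (j + 1)) - h (P j)
    rw [hPs]
    linarith
  have hc0 : c 0 = 0 := by
    show h ((range 0).image a) = 0
    simp [hh.empty]
  choose! r hr1 hr2 using fun i (hi : i ∈ G) => hσ.exists_pow_eq ha₀ hi
  have hPn : P n = G := by
    refine Subset.antisymm (hPG n) fun i hi => (memP n i).2 ⟨r i, hr1 i hi, hr2 i hi⟩
  have hcn : c n = 0 := by
    show h (P n) = 0
    rw [hPn, hG]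
  have key : ∀ k ≤ n, c k = c (n - k) := by
    intro k hk
    rcases Nat.le_total k (n - k) with h1 | h1
    · exact concave_symm hcc hup hdn hc0 hcn k (n - k) h1 (by omega)
    · exact (concave_symm hcc hup hdn hc0 hcn (n - k) k h1 (by omega)).symm
  refine ⟨r, fun i hi j hj hij => ?_, fun k => ?_⟩
  · rw [← hr2 i hi, ← hr2 j hj, hij]
  · show h _ + _ - _ = h _ + _ - _
    rw [add_sub_cancel_right, add_sub_cancel_right]
    by_cases hk : k ≤ n
    · have e1 : (G.filter fun i => r i < k) = P k := by
        ext i
        rw [mem_filter, memP]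
        constructor
        · rintro ⟨h1, h2⟩
          exact ⟨r i, h2, hr2 i h1⟩
        · rintro ⟨t, ht, rfl⟩
          refine ⟨haG t, ?_⟩
          have h1 := hinj (r (a t)) t (hr1 _ (haG t)) (by omega) (hr2 _ (haG t))
          omega
      have e2 : (G.filter fun i => k ≤ r i) = (P (n - k)).image fun i => (σ ^ k) i := by
        ext i
        rw [mem_filter, mem_image]
        constructor
        · rintro ⟨h1, h2⟩
          refine ⟨a (r i - k), (memP _ _).2 ⟨r i - k, by have := hr1 i h1; omega, rfl⟩, ?_⟩
          show (σ ^ k) ((σ ^ (r i - k)) a₀) = i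
          rw [← Equiv.Perm.mul_apply, ← pow_add]
          have : k + (r i - k) = r i := by omega
          rw [this]
          exact hr2 i h1
        · rintro ⟨j, hj, rfl⟩
          obtain ⟨t, ht, rfl⟩ := (memP _ _).1 hj
          have e3 : (σ ^ k) (a t) = a (k + t) := by
            show (σ ^ k) ((σ ^ t) a₀) = (σ ^ (k + t)) a₀
            rw [← Equiv.Perm.mul_apply, ← pow_add]
          rw [e3]
          refine ⟨haG _, ?_⟩
          have h1 := hinj (r (a (k + t))) (k + t) (hr1 _ (haG _)) (by omega) (hr2 _ (haG _))
          omega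
      rw [e1, e2, invk k _ (hPG _)]
      exact key k hk
    · have e1 : (G.filter fun i => r i < k) = G := by
        rw [filter_eq_self]
        intro i hi
        have := hr1 i hi
        omega
      have e2 : (G.filter fun i => k ≤ r i) = ∅ := by
        rw [filter_eq_empty_iff]
        intro i hi
        have := hr1 i hi
        omega
      rw [e1, e2, hG, hh.empty]

/-- Frank's question for functions invariant under a cyclic permutation of the ground set. -/
theorem sol_of_cyc (hh : Sub G h) (hG : h G = 0)
    (hc : Cyc G (fun S => h S + S.card)) : ∃ x, Sol G h x :=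
  sol_of_palin hh hG (palin_of_cyc hh hG hc)

end Pool.Agent.P901b45m
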